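import Pool.Agent.H80.HS.Defs

namespace Pool.Agent.H80.HS
open MeasureTheory Set
open scoped ContDiff

section
variable {n : ℕ} {F : Type*} [NormedAddCommGroup F] [NormedSpace ℝ F]

lemma grad_nonneg (u : H n → F) (p : H n) : 0 ≤ grad u p := Real.sqrt_nonneg _
lemma gX_nonneg (u : H n → F) (p : H n) : 0 ≤ gX u p := Real.sqrt_nonneg _
lemma gY_nonneg (u : H n → F) (p : H n) : 0 ≤ gY u p := Real.sqrt_nonneg _

lemma gX_sq (u : H n → F) (p : H n) : gX u p ^ 2 = ∑ j, ‖X u j p‖ ^ 2 :=
  Real.sq_sqrt (Finset.sum_nonneg fun _ _ => sq_nonneg _)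
lemma gY_sq (u : H n → F) (p : H n) : gY u p ^ 2 = ∑ j, ‖Y u j p‖ ^ 2 :=
  Real.sq_sqrt (Finset.sum_nonneg fun _ _ => sq_nonneg _)
lemma grad_sq (u : H n → F) (p : H n) : grad u p ^ 2 = gX u p ^ 2 + gY u p ^ 2 := by
  rw [gX_sq, gY_sq, ← Finset.sum_add_distrib]
  exact Real.sq_sqrt (Finset.sum_nonneg fun _ _ => by positivity)

lemma gX_le_grad (u : H n → F) (p : H n) : gX u p ≤ grad u p := by
  apply Real.sqrt_le_sqrt
  exact Finset.sum_le_sum fun j _ => by nlinarith [sq_nonneg ‖Y u j p‖]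
lemma gY_le_grad (u : H n → F) (p : H n) : gY u p ≤ grad u p := by
  apply Real.sqrt_le_sqrt
  exact Finset.sum_le_sum fun j _ => by nlinarith [sq_nonneg ‖X u j p‖]

lemma gX_add_gY_le (u : H n → F) (p : H n) : gX u p + gY u p ≤ Real.sqrt 2 * grad u p := by
  have h := grad_sq u p
  have h1 := gX_nonneg u p
  have h2 := gY_nonneg u p
  have h3 := grad_nonneg u p
  have h4 : Real.sqrt 2 ^ 2 = 2 := Real.sq_sqrt (by norm_num)
  apply le_of_sq_le_sq _ (by positivity)
  nlinarith [sq_nonneg (gX u p - gY u p)]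

lemma norm_X_le_gX (u : H n → F) (j : Fin n) (p : H n) : ‖X u j p‖ ≤ gX u p := by
  apply Real.le_sqrt_of_sq_le
  exact Finset.single_le_sum (f := fun j => ‖X u j p‖ ^ 2) (fun _ _ => sq_nonneg _)
    (Finset.mem_univ j)
lemma norm_Y_le_gY (u : H n → F) (j : Fin n) (p : H n) : ‖Y u j p‖ ≤ gY u p := by
  apply Real.le_sqrt_of_sq_le
  exact Finset.single_le_sum (f := fun j => ‖Y u j p‖ ^ 2) (fun _ _ => sq_nonneg _)
    (Finset.mem_univ j)

lemma continuous_X {u : H n → F} (hu : ContDiff ℝ 1 u) (j : Fin n) : Continuous (X u j) := by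
  unfold X
  exact (hu.continuous_fderiv one_ne_zero).clm_apply (by fun_prop)
lemma continuous_Y {u : H n → F} (hu : ContDiff ℝ 1 u) (j : Fin n) : Continuous (Y u j) := by
  unfold Y
  exact (hu.continuous_fderiv one_ne_zero).clm_apply (by fun_prop)
lemma continuous_gX {u : H n → F} (hu : ContDiff ℝ 1 u) : Continuous (gX u) := by
  unfold gX
  have := fun j => continuous_X hu j
  fun_prop
lemma continuous_gY {u : H n → F} (hu : ContDiff ℝ 1 u) : Continuous (gY u) := by
  unfold gY
  have := fun j => continuous_Y hu j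
  fun_prop
lemma continuous_grad {u : H n → F} (hu : ContDiff ℝ 1 u) : Continuous (grad u) := by
  unfold grad
  have := fun j => continuous_X hu j
  have := fun j => continuous_Y hu j
  fun_prop

lemma X_eq_zero {u : H n → F} {p : H n} (hp : p ∉ tsupport u) (j : Fin n) : X u j p = 0 := by
  unfold X
  rw [fderiv_of_notMem_tsupport ℝ hp]
  simp
lemma Y_eq_zero {u : H n → F} {p : H n} (hp : p ∉ tsupport u) (j : Fin n) : Y u j p = 0 := by
  unfold Y
  rw [fderiv_of_notMem_tsupport ℝ hp]
  simp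
lemma gX_eq_zero {u : H n → F} {p : H n} (hp : p ∉ tsupport u) : gX u p = 0 := by
  simp [gX, X_eq_zero hp]
lemma gY_eq_zero {u : H n → F} {p : H n} (hp : p ∉ tsupport u) : gY u p = 0 := by
  simp [gY, Y_eq_zero hp]
lemma grad_eq_zero {u : H n → F} {p : H n} (hp : p ∉ tsupport u) : grad u p = 0 := by
  simp [grad, X_eq_zero hp, Y_eq_zero hp]

lemma hasCompactSupport_gX {u : H n → F} (hc : HasCompactSupport u) : HasCompactSupport (gX u) :=
  HasCompactSupport.intro hc fun _ hp => gX_eq_zero hp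
lemma hasCompactSupport_gY {u : H n → F} (hc : HasCompactSupport u) : HasCompactSupport (gY u) :=
  HasCompactSupport.intro hc fun _ hp => gY_eq_zero hp
lemma hasCompactSupport_grad {u : H n → F} (hc : HasCompactSupport u) :
    HasCompactSupport (grad u) :=
  HasCompactSupport.intro hc fun _ hp => grad_eq_zero hp

lemma integrable_gX {u : H n → F} (hu : ContDiff ℝ 1 u) (hc : HasCompactSupport u) :
    Integrable (gX u) := (continuous_gX hu).integrable_of_hasCompactSupport
      (hasCompactSupport_gX hc)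
lemma integrable_gY {u : H n → F} (hu : ContDiff ℝ 1 u) (hc : HasCompactSupport u) :
    Integrable (gY u) := (continuous_gY hu).integrable_of_hasCompactSupport
      (hasCompactSupport_gY hc)
lemma integrable_grad {u : H n → F} (hu : ContDiff ℝ 1 u) (hc : HasCompactSupport u) :
    Integrable (grad u) := (continuous_grad hu).integrable_of_hasCompactSupport
      (hasCompactSupport_grad hc)

lemma integral_gX_le {u : H n → F} (hu : ContDiff ℝ 1 u) (hc : HasCompactSupport u) :
    ∫ p, gX u p ≤ ∫ p, grad u p :=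
  integral_mono (integrable_gX hu hc) (integrable_grad hu hc) (gX_le_grad u)
lemma integral_gY_le {u : H n → F} (hu : ContDiff ℝ 1 u) (hc : HasCompactSupport u) :
    ∫ p, gY u p ≤ ∫ p, grad u p :=
  integral_mono (integrable_gY hu hc) (integrable_grad hu hc) (gY_le_grad u)
end

/-- Volume of the Euclidean unit ball. -/
noncomputable def om (n : ℕ) : ℝ := (volume (Metric.ball (0 : V n) 1)).toReal

/-- The isoperimetric constant of `ℝ^n`. -/
noncomputable def K (n : ℕ) : ℝ := 1 / (n * om n ^ (1 / (n : ℝ)))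

lemma om_pos (n : ℕ) : 0 < om n :=
  ENNReal.toReal_pos (Metric.measure_ball_pos volume (0 : V n) one_pos).ne'
    measure_ball_lt_top.ne

lemma K_pos {n : ℕ} (hn : 1 ≤ n) : 0 < K n := by
  have h1 := om_pos n
  have h2 : (0 : ℝ) < n := by exact_mod_cast hn
  unfold K
  positivity

/-- The constant of the capacity inequality. -/
noncomputable def CC (n : ℕ) : ℝ :=
  (K n ^ 2 / 2 * (((n : ℝ) + 1) / n) ^ 4 * (4 * ((n : ℝ) + 1) ^ 5 / n) ^ (1 / (n : ℝ))) ^
    ((n : ℝ) / (2 * n + 2))

lemma CC_pos {n : ℕ} (hn : 1 ≤ n) : 0 < CC n := by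
  have h1 := K_pos hn
  have h2 : (0 : ℝ) < n := by exact_mod_cast hn
  unfold CC
  positivity

/-- `n`-volume of the slice of `F` in the x-directions, through `(·, y, s + 2 x·y)`. -/
noncomputable def sX {n : ℕ} (F : Set (H n)) (y : V n) (s : ℝ) : ENNReal :=
  volume {x : V n | (x, y, s + 2 * inner ℝ x y) ∈ F}

/-- `n`-volume of the slice of `F` in the y-directions, through `(x, ·, s - 2 x·y)`. -/
noncomputable def sY {n : ℕ} (F : Set (H n)) (x : V n) (s : ℝ) : ENNReal :=
  volume {y : V n | (x, y, s - 2 * inner ℝ x y) ∈ F}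

/-- slice volume of the x-slice through `p`. -/
noncomputable def WX {n : ℕ} (F : Set (H n)) (p : H n) : ENNReal :=
  sX F p.2.1 (p.2.2 - 2 * inner ℝ p.1 p.2.1)

/-- slice volume of the y-slice through `p`. -/
noncomputable def WY {n : ℕ} (F : Set (H n)) (p : H n) : ENNReal :=
  sY F p.1 (p.2.2 + 2 * inner ℝ p.1 p.2.1)

/-- average of `v` over the vertical segment of length `h` above `p`. -/
noncomputable def sm {n : ℕ} (h : ℝ) (v : H n → ℝ) (p : H n) : ℝ :=
  (1 / h) * ∫ σ in (0 : ℝ)..h, v (p.1, p.2.1, p.2.2 + σ)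

end Pool.Agent.H80.HS
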