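import Pool.Agent.H80.HS.Targets

namespace Pool.Agent.H80.HS.B6
open MeasureTheory Set Pool.Agent.H80.HS
open scoped ContDiff ENNReal

theorem key {n : ℕ} (h5 : T_B5) (hn : 1 ≤ n) (φ : V n → ℝ) (θ : ℝ) (hφ : ContDiff ℝ 1 φ)
    (hc : HasCompactSupport φ) (hpos : ∀ x, 0 ≤ φ x) (hθ : 0 < θ)
    (hS : volume {x | θ ≤ φ x} ≠ 0) {ε : ℝ} (hε : 0 < ε) :
    ENNReal.ofReal (1 / K n) * volume {x | θ ≤ φ x} ^ (((n : ℝ) - 1) / n) * ENNReal.ofReal θ ≤
      (∫⁻ x, ‖fderiv ℝ φ x‖ₑ) +
        ENNReal.ofReal ε * volume (Metric.thickening 1 (tsupport φ)) := by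
  have hK := K_pos hn
  have hn0 : (0 : ℝ) < n := by exact_mod_cast hn
  have hn1 : (1 : ℝ) ≤ n := by exact_mod_cast hn
  set S : Set (V n) := {x | θ ≤ φ x} with hSdef
  set U : Set (V n) := Metric.thickening 1 (tsupport φ) with hU
  have hUo : IsOpen U := Metric.isOpen_thickening
  have hUf : volume U < ⊤ := by
    have hb : Bornology.IsBounded U := hc.isBounded.thickening
    exact hb.measure_lt_top
  set D : V n → ℝ := fun x => ‖fderiv ℝ φ x‖ with hD
  have hDc : Continuous D := (hφ.continuous_fderiv one_ne_zero).norm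
  have hD0 : ∀ x, 0 ≤ D x := fun x => norm_nonneg _
  have huc : UniformContinuous (fderiv ℝ φ) :=
    (hc.fderiv ℝ).uniformContinuous_of_continuous (hφ.continuous_fderiv one_ne_zero)
  obtain ⟨δ, hδ, hδε⟩ := Metric.uniformContinuous_iff.mp huc ε hε
  set s : ℝ := min δ 1 / 2 with hs
  have hs0 : 0 < s := by positivity
  have hsδ : s < δ := by
    have := min_le_left δ 1
    have : 0 < min δ 1 := by positivity
    linarith
  have hs1 : s < 1 := by
    have := min_le_right δ 1
    linarith
  -- the mean value estimate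
  have hmv : ∀ z x : V n, dist z x < s → φ x ≤ φ z + s * (D z + ε) := by
    intro z x hzx
    have hbd : ∀ w ∈ Metric.ball z s, ‖fderiv ℝ φ w‖ ≤ D z + ε := by
      intro w hw
      have h1 : dist (fderiv ℝ φ w) (fderiv ℝ φ z) < ε :=
        hδε ((Metric.mem_ball.mp hw).trans hsδ)
      rw [dist_eq_norm] at h1
      calc ‖fderiv ℝ φ w‖ = ‖fderiv ℝ φ z + (fderiv ℝ φ w - fderiv ℝ φ z)‖ := by
            rw [add_sub_cancel]
        _ ≤ ‖fderiv ℝ φ z‖ + ‖fderiv ℝ φ w - fderiv ℝ φ z‖ := norm_add_le _ _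
        _ ≤ D z + ε := by
          have := h1.le
          simp only [hD]
          linarith
    have hmvt := (convex_ball z s).norm_image_sub_le_of_norm_fderiv_le (𝕜 := ℝ) (f := φ)
      (fun w _ => (hφ.differentiable one_ne_zero) w) hbd (Metric.mem_ball_self hs0)
      (y := x) (by rw [Metric.mem_ball, dist_comm]; exact hzx)
    have h2 : ‖x - z‖ ≤ s := by
      rw [← dist_eq_norm, dist_comm]
      exact hzx.le
    have h3 : φ x - φ z ≤ (D z + ε) * s :=
      calc φ x - φ z ≤ ‖φ x - φ z‖ := le_abs_self _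
        _ ≤ (D z + ε) * ‖x - z‖ := hmvt
        _ ≤ (D z + ε) * s := mul_le_mul_of_nonneg_left h2 (by have := hD0 z; linarith)
    linarith
  set Φ : V n → ℝ := fun z => φ z + U.indicator (fun z => s * (D z + ε)) z with hΦ
  have hind0 : ∀ z, 0 ≤ U.indicator (fun z => s * (D z + ε)) z := fun z =>
    indicator_nonneg (fun z _ => by have := hD0 z; positivity) z
  have hΦm : Measurable Φ :=
    hφ.continuous.measurable.add ((by fun_prop : Measurable fun z => s * (D z + ε)).indicator
      hUo.measurableSet)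
  have hsub : ∀ τ : ℝ, 0 < τ → Metric.thickening s {x | τ < φ x} ⊆ {z | τ < Φ z} := by
    intro τ hτ z hz
    obtain ⟨x, hx, hzx⟩ := Metric.mem_thickening_iff.mp hz
    have hx' : τ < φ x := hx
    have hxs : x ∈ tsupport φ := subset_tsupport φ (by
      rw [Function.mem_support]
      exact (hτ.trans hx').ne')
    have hzU : z ∈ U := Metric.mem_thickening_iff.mpr ⟨x, hxs, hzx.trans hs1⟩
    have := hmv z x hzx
    simp only [mem_ofPred_eq, hΦ, indicator_of_mem hzU]
    linarith
  have hSne : S.Nonempty := by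
    rw [nonempty_iff_ne_empty]
    rintro h
    exact hS (by rw [h, measure_empty])
  set c : ℝ≥0∞ := ENNReal.ofReal (s / K n) * volume S ^ (((n : ℝ) - 1) / n) with hcdef
  have hexp : 0 ≤ ((n : ℝ) - 1) / n := div_nonneg (by linarith) hn0.le
  have hlev : ∀ τ ∈ Ioo (0 : ℝ) θ, volume {x | τ < φ x} + c ≤ volume {z | τ < Φ z} := by
    intro τ hτ
    have hne : {x | τ < φ x}.Nonempty := by
      obtain ⟨x, hx⟩ := hSne
      exact ⟨x, hτ.2.trans_le hx⟩
    have hle : volume S ≤ volume {x | τ < φ x} := measure_mono fun x hx => hτ.2.trans_le hx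
    calc volume {x | τ < φ x} + c ≤ volume {x | τ < φ x} +
          ENNReal.ofReal (s / K n) * volume {x | τ < φ x} ^ (((n : ℝ) - 1) / n) := by
          rw [hcdef]
          gcongr
      _ ≤ volume (Metric.thickening s {x | τ < φ x}) :=
          h5 n hn _ s (isOpen_lt continuous_const hφ.continuous) hne hs0
      _ ≤ volume {z | τ < Φ z} := measure_mono (hsub τ hτ.1)
  -- layer cake
  have hΦ0 : ∀ z, 0 ≤ Φ z := fun z => add_nonneg (hpos z) (hind0 z)
  have lc1 : ∫⁻ z, ENNReal.ofReal (min (Φ z) θ) = ∫⁻ t in Ioi 0, volume {z | t < min (Φ z) θ} :=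
    lintegral_eq_lintegral_meas_lt volume
      (Filter.Eventually.of_forall fun z => le_min (hΦ0 z) hθ.le)
      (hΦm.min measurable_const).aemeasurable
  have lc2 : ∫⁻ z, ENNReal.ofReal (min (φ z) θ) = ∫⁻ t in Ioi 0, volume {z | t < min (φ z) θ} :=
    lintegral_eq_lintegral_meas_lt volume
      (Filter.Eventually.of_forall fun z => le_min (hpos z) hθ.le)
      (hφ.continuous.measurable.min measurable_const).aemeasurable
  have hmono : Antitone fun t : ℝ => volume {z : V n | t < min (φ z) θ} := fun a b hab =>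
    measure_mono fun z hz => lt_of_le_of_lt hab hz
  have I1 : (∫⁻ z, ENNReal.ofReal (min (φ z) θ)) + c * ENNReal.ofReal θ ≤
      ∫⁻ z, ENNReal.ofReal (min (Φ z) θ) := by
    rw [lc1, lc2]
    have hcθ : c * ENNReal.ofReal θ =
        ∫⁻ t in Ioi (0 : ℝ), (Ioo (0 : ℝ) θ).indicator (fun _ => c) t := by
      rw [lintegral_indicator measurableSet_Ioo, setLIntegral_const,
        Measure.restrict_apply measurableSet_Ioo,
        inter_eq_self_of_subset_left Ioo_subset_Ioi_self, Real.volume_Ioo, sub_zero]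
    rw [hcθ, ← lintegral_add_left hmono.measurable]
    apply setLIntegral_mono' measurableSet_Ioi
    intro t ht
    by_cases htθ : t < θ
    · have hmem : t ∈ Ioo (0 : ℝ) θ := ⟨ht, htθ⟩
      rw [indicator_of_mem hmem]
      have e1 : {z : V n | t < min (φ z) θ} = {z | t < φ z} := by
        ext z
        simp [htθ]
      have e2 : {z : V n | t < min (Φ z) θ} = {z | t < Φ z} := by
        ext z
        simp [htθ]
      rw [e1, e2]
      exact hlev t hmem
    · have hnot : t ∉ Ioo (0 : ℝ) θ := fun h => htθ h.2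
      rw [indicator_of_notMem hnot, add_zero]
      have e1 : {z : V n | t < min (φ z) θ} = ∅ := by
        ext z
        simp [htθ]
      rw [e1, measure_empty]
      exact zero_le
  have I2 : ∫⁻ z, ENNReal.ofReal (min (Φ z) θ) ≤ (∫⁻ z, ENNReal.ofReal (min (φ z) θ)) +
      ENNReal.ofReal s * ((∫⁻ x, ‖fderiv ℝ φ x‖ₑ) + ENNReal.ofReal ε * volume U) := by
    have hpt : ∀ z, ENNReal.ofReal (min (Φ z) θ) ≤ ENNReal.ofReal (min (φ z) θ) +
        (ENNReal.ofReal s * ‖fderiv ℝ φ z‖ₑ +
          ENNReal.ofReal s * ENNReal.ofReal ε * U.indicator (fun _ => (1 : ℝ≥0∞)) z) := by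
      intro z
      have h1 : min (Φ z) θ ≤ min (φ z) θ + U.indicator (fun z => s * (D z + ε)) z := by
        simp only [hΦ]
        rcases le_total (φ z) θ with h | h
        · rw [min_eq_left h]
          exact min_le_left _ _
        · rw [min_eq_right h]
          have := hind0 z
          exact (min_le_right _ _).trans (by linarith)
      have h2 : ENNReal.ofReal (min (Φ z) θ) ≤ ENNReal.ofReal (min (φ z) θ) +
          ENNReal.ofReal (U.indicator (fun z => s * (D z + ε)) z) := by
        rw [← ENNReal.ofReal_add (le_min (hpos z) hθ.le) (hind0 z)]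
        exact ENNReal.ofReal_le_ofReal h1
      refine h2.trans ?_
      gcongr
      by_cases hz : z ∈ U
      · rw [indicator_of_mem hz, indicator_of_mem hz, mul_one, mul_add,
          ENNReal.ofReal_add (by have := hD0 z; positivity) (by positivity),
          ENNReal.ofReal_mul hs0.le, ENNReal.ofReal_mul hs0.le]
        simp only [hD, ofReal_norm]
        exact le_rfl
      · rw [indicator_of_notMem hz]
        simp
    calc ∫⁻ z, ENNReal.ofReal (min (Φ z) θ) ≤ ∫⁻ z, (ENNReal.ofReal (min (φ z) θ) +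
        (ENNReal.ofReal s * ‖fderiv ℝ φ z‖ₑ +
          ENNReal.ofReal s * ENNReal.ofReal ε * U.indicator (fun _ => (1 : ℝ≥0∞)) z)) :=
          lintegral_mono hpt
      _ = _ := by
        have m1 : Measurable fun z : V n => ENNReal.ofReal (min (φ z) θ) :=
          (hφ.continuous.measurable.min measurable_const).ennreal_ofReal
        have m2 : Measurable fun z : V n => ‖fderiv ℝ φ z‖ₑ :=
          (hφ.continuous_fderiv one_ne_zero).measurable.enorm
        rw [lintegral_add_left m1, lintegral_add_left (m2.const_mul _),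
          lintegral_const_mul _ m2, lintegral_const_mul _ (measurable_const.indicator
            hUo.measurableSet), lintegral_indicator_const hUo.measurableSet, one_mul, mul_add,
          mul_assoc]
  have hfin : ∫⁻ z, ENNReal.ofReal (min (φ z) θ) ≠ ⊤ := by
    have hint : Integrable φ := hφ.continuous.integrable_of_hasCompactSupport hc
    have : ∫⁻ z, ENNReal.ofReal (min (φ z) θ) ≤ ∫⁻ z, ENNReal.ofReal (φ z) :=
      lintegral_mono fun z => ENNReal.ofReal_le_ofReal (min_le_left _ _)
    refine ne_top_of_le_ne_top ?_ this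
    have := hint.lintegral_lt_top
    exact this.ne
  have I3 : c * ENNReal.ofReal θ ≤
      ENNReal.ofReal s * ((∫⁻ x, ‖fderiv ℝ φ x‖ₑ) + ENNReal.ofReal ε * volume U) :=
    (ENNReal.add_le_add_iff_left hfin).mp (I1.trans I2)
  have hsne : ENNReal.ofReal s ≠ 0 := by
    rw [Ne, ENNReal.ofReal_eq_zero, not_le]
    exact hs0
  have e3 : c * ENNReal.ofReal θ = ENNReal.ofReal s * (ENNReal.ofReal (1 / K n) *
      volume S ^ (((n : ℝ) - 1) / n) * ENNReal.ofReal θ) := by
    rw [hcdef, show s / K n = s * (1 / K n) by ring, ENNReal.ofReal_mul hs0.le]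
    ring
  rw [e3] at I3
  exact (ENNReal.mul_le_mul_iff_right hsne ENNReal.ofReal_ne_top).mp I3

theorem b6 (h5 : T_B5) : T_B6 := by
  intro n hn φ θ hφ hc hpos hθ
  have hK := K_pos hn
  have hn0 : (0 : ℝ) < n := by exact_mod_cast hn
  by_cases hS : volume {x | θ ≤ φ x} = 0
  · rw [hS]
    simp
  have hcomp : IsCompact {x | θ ≤ φ x} := by
    apply IsCompact.of_isClosed_subset hc (isClosed_le continuous_const hφ.continuous)
    intro x hx
    apply subset_tsupport φ
    rw [Function.mem_support]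
    have : θ ≤ φ x := hx
    linarith
  have hSf : volume {x | θ ≤ φ x} ≠ ⊤ := hcomp.measure_lt_top.ne
  have hpow : volume {x | θ ≤ φ x} * volume {x | θ ≤ φ x} ^ (-(1 / (n : ℝ))) =
      volume {x | θ ≤ φ x} ^ (((n : ℝ) - 1) / n) := by
    have h1 := ENNReal.rpow_add (1 : ℝ) (-(1 / (n : ℝ))) hS hSf
    rw [ENNReal.rpow_one] at h1
    rw [← h1]
    congr 1
    field_simp
    ring
  rw [hpow]
  have hU : volume (Metric.thickening 1 (tsupport φ)) ≠ ⊤ :=
    (hc.isBounded.thickening (δ := 1)).measure_lt_top.ne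
  have hmain : ENNReal.ofReal (1 / K n) * volume {x | θ ≤ φ x} ^ (((n : ℝ) - 1) / n) *
      ENNReal.ofReal θ ≤ ∫⁻ x, ‖fderiv ℝ φ x‖ₑ := by
    have hlim : Filter.Tendsto (fun ε : ℝ => (∫⁻ x, ‖fderiv ℝ φ x‖ₑ) +
        ENNReal.ofReal ε * volume (Metric.thickening 1 (tsupport φ)))
        (nhdsWithin 0 (Ioi 0)) (nhds ((∫⁻ x, ‖fderiv ℝ φ x‖ₑ) + ENNReal.ofReal 0 *
          volume (Metric.thickening 1 (tsupport φ)))) := by
      apply Filter.Tendsto.const_add
      apply ENNReal.Tendsto.mul_const _ (Or.inr hU)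
      exact (ENNReal.continuous_ofReal.tendsto 0).mono_left nhdsWithin_le_nhds
    rw [ENNReal.ofReal_zero, zero_mul, add_zero] at hlim
    exact ge_of_tendsto hlim (Filter.eventually_of_mem self_mem_nhdsWithin
      fun ε hε => key h5 hn φ θ hφ hc hpos hθ hS hε)
  have hKK : ENNReal.ofReal (K n) * ENNReal.ofReal (1 / K n) = 1 := by
    rw [← ENNReal.ofReal_mul hK.le, mul_one_div_cancel hK.ne', ENNReal.ofReal_one]
  calc ENNReal.ofReal θ * volume {x | θ ≤ φ x} ^ (((n : ℝ) - 1) / n)
      = ENNReal.ofReal (K n) * ENNReal.ofReal (1 / K n) *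
        (volume {x | θ ≤ φ x} ^ (((n : ℝ) - 1) / n) * ENNReal.ofReal θ) := by
        rw [hKK, one_mul, mul_comm]
    _ = ENNReal.ofReal (K n) * (ENNReal.ofReal (1 / K n) *
        volume {x | θ ≤ φ x} ^ (((n : ℝ) - 1) / n) * ENNReal.ofReal θ) := by
        ring
    _ ≤ ENNReal.ofReal (K n) * ∫⁻ x, ‖fderiv ℝ φ x‖ₑ := by
        gcongr

end Pool.Agent.H80.HS.B6
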