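import Mathlib

namespace Pool.Agent.H80.HS
open MeasureTheory Set
open scoped ContDiff

/-- Real `n`-space with its Euclidean norm. -/
abbrev V (n : ℕ) := EuclideanSpace ℝ (Fin n)

/-- The Heisenberg group: points `(x, y, t)`, `z = x + i y`. -/
abbrev H (n : ℕ) := V n × V n × ℝ

/-- `X_j u = ∂_{x_j} u + 2 y_j ∂_t u`. -/
noncomputable def X {n : ℕ} {F : Type*} [NormedAddCommGroup F] [NormedSpace ℝ F]
    (u : H n → F) (j : Fin n) (p : H n) : F :=
  fderiv ℝ u p (EuclideanSpace.single j (1 : ℝ), 0, 2 * p.2.1 j)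

/-- `Y_j u = ∂_{y_j} u - 2 x_j ∂_t u`. -/
noncomputable def Y {n : ℕ} {F : Type*} [NormedAddCommGroup F] [NormedSpace ℝ F]
    (u : H n → F) (j : Fin n) (p : H n) : F :=
  fderiv ℝ u p (0, EuclideanSpace.single j (1 : ℝ), -2 * p.1 j)

/-- Length of `(X_1 u, …, X_n u)`. -/
noncomputable def gX {n : ℕ} {F : Type*} [NormedAddCommGroup F] [NormedSpace ℝ F]
    (u : H n → F) (p : H n) : ℝ := Real.sqrt (∑ j, ‖X u j p‖ ^ 2)

/-- Length of `(Y_1 u, …, Y_n u)`. -/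
noncomputable def gY {n : ℕ} {F : Type*} [NormedAddCommGroup F] [NormedSpace ℝ F]
    (u : H n → F) (p : H n) : ℝ := Real.sqrt (∑ j, ‖Y u j p‖ ^ 2)

/-- Length of the horizontal gradient. -/
noncomputable def grad {n : ℕ} {F : Type*} [NormedAddCommGroup F] [NormedSpace ℝ F]
    (u : H n → F) (p : H n) : ℝ := Real.sqrt (∑ j, (‖X u j p‖ ^ 2 + ‖Y u j p‖ ^ 2))

/-- The horizontal Sobolev inequality with constant `C`, for `F`-valued test functions. -/
def SobolevIneq (F : Type*) [NormedAddCommGroup F] [NormedSpace ℝ F] (n : ℕ) (p C : ℝ) : Prop :=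
  ∀ u : H n → F, ContDiff ℝ ∞ u → HasCompactSupport u →
    (∫ z, ‖u z‖ ^ ((2 * n + 2) * p / (2 * n + 2 - p))) ^ ((2 * n + 2 - p) / (2 * n + 2)) ≤
      C * ∫ z, grad u z ^ p

end Pool.Agent.H80.HS
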