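import Pool.Agent.H80.HS.Targets

namespace Pool.Agent.H80.HS.FIN
open MeasureTheory Set Pool.Agent.H80.HS
open scoped ContDiff ENNReal

theorem fin (hC2 : T_C2) (hG0 : T_G0) (hG5 : T_G5) (hA3 : T_A3) : T_Final := by
  obtain ⟨A1, h1⟩ := hG5
  obtain ⟨A2, h2⟩ := hA3
  refine ⟨max A1 A2, ?_⟩
  intro n p hp hpn 𝕜 _
  have hn1 : (1 : ℝ) < n := hp.trans_le hpn
  have hn : 2 ≤ n := by
    have : 1 < n := by exact_mod_cast hn1
    omega
  have hn0 : (0 : ℝ) < n := by linarith
  have hlog : 0 < Real.log n := Real.log_pos hn1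
  have hE : 0 ≤ p * (p + Real.log n) / n := by positivity
  have hE1 : A1 * p * (p + Real.log n) / n ≤ max A1 A2 * p * (p + Real.log n) / n := by
    have := mul_le_mul_of_nonneg_right (le_max_left A1 A2) hE
    calc A1 * p * (p + Real.log n) / n = A1 * (p * (p + Real.log n) / n) := by ring
      _ ≤ max A1 A2 * (p * (p + Real.log n) / n) := this
      _ = _ := by ring
  have hE2 : A2 * p * (p + Real.log n) / n ≤ max A1 A2 * p * (p + Real.log n) / n := by
    have := mul_le_mul_of_nonneg_right (le_max_right A1 A2) hE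
    calc A2 * p * (p + Real.log n) / n = A2 * (p * (p + Real.log n) / n) := by ring
      _ ≤ max A1 A2 * (p * (p + Real.log n) / n) := this
      _ = _ := by ring
  set S : Set ℝ := {C : ℝ | SobolevIneq 𝕜 n p C} with hS
  have hup : ((2 * (n : ℝ) + 2) * p / (2 * n + 2 - p) * CC n) ^ p ∈ S :=
    hC2 𝕜 n (by omega) p hp (by linarith)
  have hlow : ∀ C ∈ S, 0 < C ∧ p / 2 * Real.log (p ^ 2 / (4 * Real.pi * Real.exp 1 * n)) -
      A1 * p * (p + Real.log n) / n ≤ Real.log C := fun C hC =>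
    h1 n hn p C hp.le hpn (hG0 𝕜 n p C hC)
  have hbdd : BddBelow S := ⟨0, fun C hC => (hlow C hC).1.le⟩
  have hmem : sInf S ∈ S := by
    intro u hu hc
    have hI : 0 ≤ ∫ z, grad u z ^ p :=
      integral_nonneg fun z => Real.rpow_nonneg (grad_nonneg u z) p
    have hall : ∀ C ∈ S, (∫ z, ‖u z‖ ^ ((2 * n + 2) * p / (2 * n + 2 - p))) ^
        ((2 * n + 2 - p) / (2 * n + 2)) ≤ C * ∫ z, grad u z ^ p := fun C hC => hC u hu hc
    rcases hI.eq_or_lt with h0 | h0
    · have := hall _ hup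
      rw [← h0, mul_zero] at this
      rw [← h0, mul_zero]
      exact this
    · rw [← div_le_iff₀ h0]
      apply le_csInf ⟨_, hup⟩
      intro C hC
      rw [div_le_iff₀ h0]
      exact hall C hC
  have hleast : IsLeast S (sInf S) := ⟨hmem, fun C hC => csInf_le hbdd hC⟩
  obtain ⟨hpos, hl⟩ := hlow _ hmem
  refine ⟨sInf S, hpos, hleast, ?_⟩
  rw [abs_le]
  constructor
  · linarith
  · have hle : sInf S ≤ ((2 * (n : ℝ) + 2) * p / (2 * n + 2 - p) * CC n) ^ p :=
      csInf_le hbdd hup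
    have := Real.log_le_log hpos hle
    have := (h2 n hn p hp hpn).2
    linarith

end Pool.Agent.H80.HS.FIN
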