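import Pool.Agent.H80.HS.Targets

/-! A plateau function. -/

namespace Pool.Agent.H80.HS
open MeasureTheory Set Pool.Agent.H80.HS
open scoped ContDiff ENNReal


private lemma st_contDiff : ContDiff ℝ ∞ Real.smoothTransition := Real.smoothTransition.contDiff

private lemma st_diff : Differentiable ℝ Real.smoothTransition := st_contDiff.differentiable (by simp)

private lemma deriv_st_neg {x : ℝ} (hx : x < 0) : deriv Real.smoothTransition x = 0 := by
  have h : Real.smoothTransition =ᶠ[nhds x] fun _ => (0 : ℝ) := by
    filter_upwards [Iio_mem_nhds hx] with y hy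
    exact Real.smoothTransition.zero_of_nonpos (le_of_lt hy)
  rw [h.deriv_eq]
  simp

private lemma deriv_st_one {x : ℝ} (hx : 1 < x) : deriv Real.smoothTransition x = 0 := by
  have h : Real.smoothTransition =ᶠ[nhds x] fun _ => (1 : ℝ) := by
    filter_upwards [Ioi_mem_nhds hx] with y hy
    exact Real.smoothTransition.one_of_one_le (le_of_lt hy)
  rw [h.deriv_eq]
  simp

private lemma deriv_st_bdd : ∃ M : ℝ, 0 ≤ M ∧ ∀ x, |deriv Real.smoothTransition x| ≤ M := by
  have hc : Continuous (deriv Real.smoothTransition) := st_contDiff.continuous_deriv (by simp)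
  obtain ⟨M, hM⟩ := (isCompact_Icc (a := (0 : ℝ)) (b := 1)).exists_bound_of_continuousOn
    hc.continuousOn
  refine ⟨max M 0, le_max_right _ _, fun x => ?_⟩
  rcases lt_or_ge x 0 with h | h
  · rw [deriv_st_neg h]
    simp
  · rcases lt_or_ge 1 x with h1 | h1
    · rw [deriv_st_one h1]
      simp
    · have := hM x ⟨h, h1⟩
      rw [Real.norm_eq_abs] at this
      exact this.trans (le_max_left _ _)

/-- the plateau function -/
private noncomputable def pl (T t : ℝ) : ℝ := Real.smoothTransition (T + 1 - t) * Real.smoothTransition (T + 1 + t)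

private lemma pl_contDiff (T : ℝ) : ContDiff ℝ ∞ (pl T) := by
  unfold pl
  exact (st_contDiff.comp (by fun_prop)).mul (st_contDiff.comp (by fun_prop))

private lemma pl_deriv (T t : ℝ) : deriv (pl T) t =
    -deriv Real.smoothTransition (T + 1 - t) * Real.smoothTransition (T + 1 + t) + Real.smoothTransition (T + 1 - t) * deriv Real.smoothTransition (T + 1 + t) := by
  have h1 : HasDerivAt (fun t : ℝ => Real.smoothTransition (T + 1 - t)) (deriv Real.smoothTransition (T + 1 - t) * (-1)) t :=
    HasDerivAt.comp t (h₂ := Real.smoothTransition) (st_diff _).hasDerivAt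
      (by simpa using (hasDerivAt_id t).const_sub (T + 1))
  have h2 : HasDerivAt (fun t : ℝ => Real.smoothTransition (T + 1 + t)) (deriv Real.smoothTransition (T + 1 + t) * 1) t :=
    HasDerivAt.comp t (h₂ := Real.smoothTransition) (st_diff _).hasDerivAt
      (by simpa using (hasDerivAt_id t).const_add (T + 1))
  have h3 := (h1.mul h2).deriv
  have e : pl T = (fun t : ℝ => Real.smoothTransition (T + 1 - t)) * fun t : ℝ => Real.smoothTransition (T + 1 + t) := rfl
  rw [e, h3]
  ring

private lemma pl_out {T t : ℝ} (ht : T + 1 ≤ |t|) : pl T t = 0 := by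
  unfold pl
  rcases le_abs.1 ht with h | h
  · rw [Real.smoothTransition.zero_of_nonpos (by linarith : T + 1 - t ≤ 0), zero_mul]
  · rw [Real.smoothTransition.zero_of_nonpos (by linarith : T + 1 + t ≤ 0), mul_zero]

private lemma pl_in {T t : ℝ} (ht : |t| ≤ T) : pl T t = 1 := by
  unfold pl
  obtain ⟨h1, h2⟩ := abs_le.1 ht
  rw [Real.smoothTransition.one_of_one_le (by linarith : 1 ≤ T + 1 - t),
    Real.smoothTransition.one_of_one_le (by linarith : 1 ≤ T + 1 + t), mul_one]

private lemma pl_abs (T t : ℝ) : 0 ≤ pl T t ∧ pl T t ≤ 1 := by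
  unfold pl
  have h1 := Real.smoothTransition.nonneg (T + 1 - t)
  have h2 := Real.smoothTransition.nonneg (T + 1 + t)
  have h3 := Real.smoothTransition.le_one (T + 1 - t)
  have h4 := Real.smoothTransition.le_one (T + 1 + t)
  exact ⟨mul_nonneg h1 h2, mul_le_one₀ h3 h2 h4⟩

private lemma pl_deriv_out {T t : ℝ} (ht : T + 1 < |t|) : deriv (pl T) t = 0 := by
  rw [pl_deriv]
  rcases lt_abs.1 ht with h | h
  · rw [Real.smoothTransition.zero_of_nonpos (by linarith : T + 1 - t ≤ 0),
      deriv_st_neg (by linarith : T + 1 - t < 0)]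
    ring
  · rw [Real.smoothTransition.zero_of_nonpos (by linarith : T + 1 + t ≤ 0),
      deriv_st_neg (by linarith : T + 1 + t < 0)]
    ring

private lemma pl_deriv_in {T t : ℝ} (ht : |t| < T) : deriv (pl T) t = 0 := by
  rw [pl_deriv]
  obtain ⟨h1, h2⟩ := abs_lt.1 ht
  rw [deriv_st_one (by linarith : 1 < T + 1 - t), deriv_st_one (by linarith : 1 < T + 1 + t)]
  ring

private lemma pl_cpt (T : ℝ) : HasCompactSupport (pl T) := by
  refine HasCompactSupport.intro (isCompact_Icc (a := -(T + 1)) (b := T + 1)) fun t ht => ?_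
  apply pl_out
  by_contra h
  rw [not_le, abs_lt] at h
  exact ht ⟨h.1.le, h.2.le⟩

theorem g4 : T_G4 := by
  obtain ⟨M, hM0, hM⟩ := deriv_st_bdd
  refine ⟨1 + 16 * M ^ 2, by nlinarith [sq_nonneg M], fun T hT => ?_⟩
  refine ⟨pl T, pl_contDiff T, pl_cpt T, ?_, ?_⟩
  · intro q hq
    have hc : Continuous (fun t => |pl T t| ^ q) :=
      ((pl_contDiff T).continuous.abs).rpow_const fun _ => Or.inr hq.le
    have hcs : HasCompactSupport (fun t => |pl T t| ^ q) := by
      refine HasCompactSupport.intro (isCompact_Icc (a := -(T + 1)) (b := T + 1)) fun t ht => ?_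
      have h0 : pl T t = 0 := by
        apply pl_out
        by_contra h
        rw [not_le, abs_lt] at h
        exact ht ⟨h.1.le, h.2.le⟩
      show |pl T t| ^ q = 0
      rw [h0, abs_zero, Real.zero_rpow hq.ne']
    have h1 : ∫ t, (Icc (-T) T).indicator (fun _ => (1 : ℝ)) t = 2 * T := by
      rw [integral_indicator measurableSet_Icc, setIntegral_const]
      simp only [smul_eq_mul, mul_one]
      rw [Measure.real, Real.volume_Icc, ENNReal.toReal_ofReal (by linarith)]
      ring
    rw [← h1]
    refine integral_mono_of_nonneg (Filter.Eventually.of_forall fun t => ?_)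
      (hc.integrable_of_hasCompactSupport hcs) (Filter.Eventually.of_forall fun t => ?_)
    · exact indicator_nonneg (fun _ _ => zero_le_one) t
    · by_cases ht : t ∈ Icc (-T) T
      · rw [indicator_of_mem ht]
        show 1 ≤ |pl T t| ^ q
        rw [pl_in (abs_le.2 ⟨ht.1, ht.2⟩)]
        simp
      · rw [indicator_of_notMem ht]
        show 0 ≤ |pl T t| ^ q
        positivity
  · intro p hp
    obtain ⟨B, hB⟩ : ∃ B : ℝ, B = 1 + 16 * M ^ 2 := ⟨_, rfl⟩
    rw [← hB]
    have hB1 : 1 ≤ B := by
      rw [hB]
      nlinarith [sq_nonneg M]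
    obtain ⟨D, hD⟩ : ∃ D : ℝ, D = B ^ (p / 2) := ⟨_, rfl⟩
    have hD0 : 0 ≤ D := by
      rw [hD]
      positivity
    rw [← hD]
    have hbd : ∀ t, pl T t ^ 2 + 4 * deriv (pl T) t ^ 2 ≤ B := by
      intro t
      have h1 := pl_abs T t
      have h2 : |deriv (pl T) t| ≤ 2 * M := by
        rw [pl_deriv]
        have a1 := Real.smoothTransition.nonneg (T + 1 - t)
        have a2 := Real.smoothTransition.nonneg (T + 1 + t)
        have a3 := Real.smoothTransition.le_one (T + 1 - t)
        have a4 := Real.smoothTransition.le_one (T + 1 + t)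
        have b1 : |-deriv Real.smoothTransition (T + 1 - t) * Real.smoothTransition (T + 1 + t)| ≤ M := by
          rw [abs_mul, abs_neg, abs_of_nonneg a2]
          calc |deriv Real.smoothTransition (T + 1 - t)| * Real.smoothTransition (T + 1 + t) ≤ M * 1 :=
                mul_le_mul (hM _) a4 a2 hM0
            _ = M := mul_one M
        have b2 : |Real.smoothTransition (T + 1 - t) * deriv Real.smoothTransition (T + 1 + t)| ≤ M := by
          rw [abs_mul, abs_of_nonneg a1]
          calc Real.smoothTransition (T + 1 - t) * |deriv Real.smoothTransition (T + 1 + t)| ≤ 1 * M :=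
                mul_le_mul a3 (hM _) (abs_nonneg _) zero_le_one
            _ = M := one_mul M
        calc _ ≤ |-deriv Real.smoothTransition (T + 1 - t) * Real.smoothTransition (T + 1 + t)| +
              |Real.smoothTransition (T + 1 - t) * deriv Real.smoothTransition (T + 1 + t)| := abs_add_le _ _
          _ ≤ 2 * M := by linarith
      have h3 : deriv (pl T) t ^ 2 ≤ (2 * M) ^ 2 := by
        rw [← sq_abs]
        exact pow_le_pow_left₀ (abs_nonneg _) h2 2
      have h4 : pl T t ^ 2 ≤ 1 := pow_le_one₀ h1.1 h1.2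
      rw [hB]
      nlinarith
    let F : ℝ → ℝ := fun t => (Icc (-T) T).indicator (fun _ => (1 : ℝ)) t +
      ((Icc T (T + 1)).indicator (fun _ => D) t + (Icc (-(T + 1)) (-T)).indicator (fun _ => D) t)
    have i1 : Integrable ((Icc (-T) T).indicator fun _ => (1 : ℝ)) :=
      (integrable_indicator_iff measurableSet_Icc).2 (by simp [integrableOn_const_iff])
    have i2 : Integrable ((Icc T (T + 1)).indicator fun _ => D) :=
      (integrable_indicator_iff measurableSet_Icc).2 (by simp [integrableOn_const_iff])
    have i3 : Integrable ((Icc (-(T + 1)) (-T)).indicator fun _ => D) :=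
      (integrable_indicator_iff measurableSet_Icc).2 (by simp [integrableOn_const_iff])
    have hF : ∫ t, F t = 2 * T + 2 * D := by
      have s1 := integral_add i1 (i2.add i3)
      have s2 := integral_add i2 i3
      refine s1.trans ?_
      refine (congrArg (fun z => (∫ t, (Icc (-T) T).indicator (fun _ => (1 : ℝ)) t) + z)
        s2).trans ?_
      show (∫ t, (Icc (-T) T).indicator (fun _ => (1 : ℝ)) t) +
        ((∫ t, (Icc T (T + 1)).indicator (fun _ => D) t) +
          ∫ t, (Icc (-(T + 1)) (-T)).indicator (fun _ => D) t) = _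
      rw [integral_indicator measurableSet_Icc,
        integral_indicator measurableSet_Icc, integral_indicator measurableSet_Icc,
        setIntegral_const, setIntegral_const, setIntegral_const]
      simp only [smul_eq_mul, mul_one, Measure.real, Real.volume_Icc]
      rw [ENNReal.toReal_ofReal (by linarith), ENNReal.toReal_ofReal (by linarith),
        ENNReal.toReal_ofReal (by linarith)]
      ring
    rw [← hF]
    have hbase : ∀ t, 0 ≤ pl T t ^ 2 + 4 * deriv (pl T) t ^ 2 := fun t => by positivity
    refine integral_mono_of_nonneg (Filter.Eventually.of_forall fun t => ?_)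
      (i1.add (i2.add i3)) (Filter.Eventually.of_forall fun t => ?_)
    · exact Real.rpow_nonneg (hbase t) _
    · show (pl T t ^ 2 + 4 * deriv (pl T) t ^ 2) ^ (p / 2) ≤ F t
      have n1 : 0 ≤ (Icc (-T) T).indicator (fun _ => (1 : ℝ)) t :=
        indicator_nonneg (fun _ _ => zero_le_one) t
      have n2 : 0 ≤ (Icc T (T + 1)).indicator (fun _ => D) t :=
        indicator_nonneg (fun _ _ => hD0) t
      have n3 : 0 ≤ (Icc (-(T + 1)) (-T)).indicator (fun _ => D) t :=
        indicator_nonneg (fun _ _ => hD0) t
      have hle : (pl T t ^ 2 + 4 * deriv (pl T) t ^ 2) ^ (p / 2) ≤ D := by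
        rw [hD]
        exact Real.rpow_le_rpow (hbase t) (hbd t) (by linarith)
      rcases lt_or_ge (|t|) T with h | h
      · have e1 : (Icc (-T) T).indicator (fun _ => (1 : ℝ)) t = 1 :=
          indicator_of_mem (show t ∈ Icc (-T) T from ⟨(abs_lt.1 h).1.le, (abs_lt.1 h).2.le⟩) _
        rw [pl_in h.le, pl_deriv_in h]
        show _ ≤ (Icc (-T) T).indicator (fun _ => (1 : ℝ)) t + (_ + _)
        rw [e1, show ((1 : ℝ) ^ 2 + 4 * 0 ^ 2) = 1 by norm_num, Real.one_rpow]
        linarith
      · rcases le_or_gt (|t|) (T + 1) with h2 | h2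
        · rcases le_abs.1 h with h3 | h3
          · have e1 : (Icc T (T + 1)).indicator (fun _ => D) t = D :=
              indicator_of_mem (show t ∈ Icc T (T + 1) from ⟨h3, (abs_le.1 h2).2⟩) _
            show _ ≤ _ + ((Icc T (T + 1)).indicator (fun _ => D) t + _)
            rw [e1]
            linarith
          · have e1 : (Icc (-(T + 1)) (-T)).indicator (fun _ => D) t = D :=
              indicator_of_mem (show t ∈ Icc (-(T + 1)) (-T) from
                ⟨(abs_le.1 h2).1, by linarith⟩) _
            show _ ≤ _ + (_ + (Icc (-(T + 1)) (-T)).indicator (fun _ => D) t)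
            rw [e1]
            linarith
        · rw [pl_out h2.le, pl_deriv_out h2]
          have e0 : ((0 : ℝ) ^ 2 + 4 * 0 ^ 2) ^ (p / 2) = 0 := by
            rw [show ((0 : ℝ) ^ 2 + 4 * 0 ^ 2) = 0 by norm_num, Real.zero_rpow (by positivity)]
          rw [e0]
          show 0 ≤ _ + (_ + _)
          linarith

end Pool.Agent.H80.HS
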