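import Pool.Agent.H11.HS.S2
import Pool.Agent.H11.HS.S4
import Pool.Agent.H12.HS.V1
import Pool.Agent.H12.HS.V2
import Pool.Agent.H17.HS.A2
import Pool.Agent.H17.HS.B3
import Pool.Agent.H37.HS.A1
import Pool.Agent.H37.HS.G0
import Pool.Agent.H37.HS.G1a
import Pool.Agent.H37.HS.V5
import Pool.Agent.H4.HS.B2
import Pool.Agent.H4.HS.C2
import Pool.Agent.H4.HS.G1
import Pool.Agent.H4.HS.L3
import Pool.Agent.H40.HS.S5
import Pool.Agent.H40.HS.S6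
import Pool.Agent.H48.HS.L2
import Pool.Agent.H48.HS.V0
import Pool.Agent.H48.HS.V7
import Pool.Agent.H58.HS.B5
import Pool.Agent.H58.HS.V6
import Pool.Agent.H58.HS.V8
import Pool.Agent.H67.HS.B1
import Pool.Agent.H67.HS.B4
import Pool.Agent.H67.HS.S1
import Pool.Agent.H68.HS.C1
import Pool.Agent.H68.HS.V3
import Pool.Agent.H68.HS.V4
import Pool.Agent.H69.HS.S3
import Pool.Agent.H76.HS.G1b
import Pool.Agent.H80.HS.B6
import Pool.Agent.H80.HS.FIN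
import Pool.Agent.H80.HS.G4
import Pool.Agent.H89.HS.G2
import Pool.Agent.H90.HS.G5
import Pool.Agent.H94.HS.A3
import Pool.Agent.H94.HS.G3
import Pool.Agent.H94.HS.L1

/-!
# The sharp constant of the horizontal Sobolev inequality in large dimension

For `1 < p <= n` the optimal constant of the horizontal Sobolev inequality on the Heisenberg group
of real dimension `2 n + 1` is `(p ^ 2 / (4 * pi * e * n)) ^ (p / 2)` up to a factor
`exp (O (p * (p + log n) / n))`.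
-/

set_option autoImplicit false

namespace Pool.Agent.Results.MP_8352e3_an.LargeDimension

open MeasureTheory Set Pool.Agent.H80.HS

theorem pB1 : T_B1 := Pool.Agent.H67.HS.B1.b1
theorem pB2 : T_B2 := Pool.Agent.H4.HS.B2.b2 pB1
theorem pB3 : T_B3 := Pool.Agent.H17.HS.b3 pB2
theorem pB4 : T_B4 := Pool.Agent.H67.HS.B4.b4 pB3
theorem pB5 : T_B5 := Pool.Agent.H58.HS.B5.b5 pB4
theorem pB6 : T_B6 := Pool.Agent.H80.HS.B6.b6 pB5
theorem pS1 : T_S1 := Pool.Agent.H67.HS.S1.s1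
theorem pS2 : T_S2 := Pool.Agent.H11.HS.S2.s2
theorem pS3 : T_S3 := Pool.Agent.H69.HS.S3.s3
theorem pS4 : T_S4 := Pool.Agent.H11.HS.S4.s4
theorem pS5 : T_S5 := Pool.Agent.H40.HS.S5.s5 pB6 pS1 pS3
theorem pS6 : T_S6 := Pool.Agent.H40.HS.S6.s6 pB6 pS2 pS4
theorem pV0 : T_V0 := Pool.Agent.H48.HS.V0.v0
theorem pV1 : T_V1 := Pool.Agent.H12.HS.V1.v1 pV0
theorem pV2 : T_V2 := Pool.Agent.H12.HS.V2.v2
theorem pV3 : T_V3 := Pool.Agent.H68.HS.v3 pV2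
theorem pV4 : T_V4 := Pool.Agent.H68.HS.v4 pV1 pV2
theorem pV5 : T_V5 := Pool.Agent.H37.HS.v5 pS1 pS2 pV2
theorem pV6 : T_V6 := Pool.Agent.H58.HS.V6.v6 pS1 pS2
theorem pV7 : T_V7 := Pool.Agent.H48.HS.V7.v7 pS5 pS6 pV2 pV3 pV5 pV6
theorem pV8 : T_V8 := Pool.Agent.H58.HS.V8.v8 pV2 pV4 pV7
theorem pL1 : T_L1 := Pool.Agent.H94.HS.L1.l1
theorem pL2 : T_L2 := Pool.Agent.H48.HS.L2.l2 pV8
theorem pL3 : T_L3 := Pool.Agent.H4.HS.L3.l3 pL1 pL2
theorem pC1 : T_C1 := Pool.Agent.H68.HS.c1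
theorem pC2 : T_C2 := Pool.Agent.H4.HS.C2.c2 pC1 pL3
theorem pG0 : T_G0 := Pool.Agent.H37.HS.g0
theorem pG1a : T_G1a := Pool.Agent.H37.HS.g1a
theorem pG1b : T_G1b := Pool.Agent.H76.HS.G1b.g1b
theorem pG1 : T_G1 := Pool.Agent.H4.HS.G1.g1 pG1a pG1b
theorem pG2 : T_G2 := Pool.Agent.H89.HS.G2.g2
theorem pG3 : T_G3 := Pool.Agent.H94.HS.G3.g3
theorem pG4 : T_G4 := Pool.Agent.H80.HS.g4
theorem pG5 : T_G5 := Pool.Agent.H90.HS.G5.g5 pG1 pG2 pG3 pG4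
theorem pA1 : T_A1 := Pool.Agent.H37.HS.a1
theorem pA2 : T_A2 := Pool.Agent.H17.HS.a2 pA1
theorem pA3 : T_A3 := Pool.Agent.H94.HS.A3.a3 pA2

/-- For `1 < p <= n` the horizontal Sobolev inequality on the Heisenberg group of dimension
`2 n + 1` has an optimal constant `C`, and `log C` differs from
`(p / 2) log (p ^ 2 / (4 pi e n))` by at most `A p (p + log n) / n`, `A` an absolute constant. -/
theorem result : ∃ A : ℝ, ∀ n : ℕ, ∀ p : ℝ, 1 < p → p ≤ n → ∀ (𝕜 : Type) [RCLike 𝕜],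
    ∃ C : ℝ, 0 < C ∧ IsLeast {C : ℝ | SobolevIneq 𝕜 n p C} C ∧
      |Real.log C - p / 2 * Real.log (p ^ 2 / (4 * Real.pi * Real.exp 1 * n))| ≤
        A * p * (p + Real.log n) / n :=
  Pool.Agent.H80.HS.FIN.fin pC2 pG0 pG5 pA3

end Pool.Agent.Results.MP_8352e3_an.LargeDimension
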