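import Pool.Agent.H80.HS.Basic

namespace Pool.Agent.H80.HS
open MeasureTheory Set
open scoped ContDiff ENNReal

/-- B1: Brunn-Minkowski on the line. -/
def T_B1 : Prop := ∀ A B C : Set ℝ, A.Nonempty → B.Nonempty → MeasurableSet A →
  MeasurableSet B → (∀ a ∈ A, ∀ b ∈ B, a + b ∈ C) → volume A + volume B ≤ volume C

/-- B2: Prekopa-Leindler on the line. -/
def T_B2 : Prop := ∀ l : ℝ, 0 < l → l < 1 → ∀ f g h : ℝ → ℝ≥0∞, Measurable f → Measurable g →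
  Measurable h → (∀ x y, f x ^ (1 - l) * g y ^ l ≤ h ((1 - l) * x + l * y)) →
  (∫⁻ x, f x) ^ (1 - l) * (∫⁻ x, g x) ^ l ≤ ∫⁻ x, h x

/-- B3: Prekopa-Leindler on `ℝ^n`. -/
def T_B3 : Prop := ∀ n : ℕ, ∀ l : ℝ, 0 < l → l < 1 → ∀ f g h : (Fin n → ℝ) → ℝ≥0∞,
  Measurable f → Measurable g → Measurable h →
  (∀ x y, f x ^ (1 - l) * g y ^ l ≤ h ((1 - l) • x + l • y)) →
  (∫⁻ x, f x) ^ (1 - l) * (∫⁻ x, g x) ^ l ≤ ∫⁻ x, h x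

/-- B4: multiplicative Brunn-Minkowski for open sets. -/
def T_B4 : Prop := ∀ n : ℕ, ∀ l : ℝ, 0 < l → l < 1 → ∀ A B C : Set (V n), IsOpen A → IsOpen B →
  IsOpen C → (∀ a ∈ A, ∀ b ∈ B, (1 - l) • a + l • b ∈ C) →
  volume A ^ (1 - l) * volume B ^ l ≤ volume C

/-- B5: growth of volume under thickening. -/
def T_B5 : Prop := ∀ n : ℕ, 1 ≤ n → ∀ (A : Set (V n)) (s : ℝ), IsOpen A → A.Nonempty → 0 < s →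
  volume A + ENNReal.ofReal (s / K n) * volume A ^ (((n : ℝ) - 1) / n) ≤
    volume (Metric.thickening s A)

/-- B6: capacity inequality in `ℝ^n`. -/
def T_B6 : Prop := ∀ n : ℕ, 1 ≤ n → ∀ (φ : V n → ℝ) (θ : ℝ), ContDiff ℝ 1 φ →
  HasCompactSupport φ → (∀ x, 0 ≤ φ x) → 0 < θ →
  ENNReal.ofReal θ * (volume {x | θ ≤ φ x} * volume {x | θ ≤ φ x} ^ (-(1 / (n : ℝ)))) ≤
    ENNReal.ofReal (K n) * ∫⁻ x, ‖fderiv ℝ φ x‖ₑ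

/-- S1: Tonelli and shear. -/
def T_S1 : Prop := ∀ (n : ℕ) (f : H n → ℝ≥0∞), Measurable f →
  ∫⁻ p, f p = ∫⁻ q : V n × ℝ, ∫⁻ x : V n, f (x, q.1, q.2 + 2 * inner ℝ x q.1)

/-- S2: Tonelli and shear. -/
def T_S2 : Prop := ∀ (n : ℕ) (f : H n → ℝ≥0∞), Measurable f →
  ∫⁻ p, f p = ∫⁻ q : V n × ℝ, ∫⁻ y : V n, f (q.1, y, q.2 - 2 * inner ℝ q.1 y)

/-- S3: gradient on x-slices. -/
def T_S3 : Prop := ∀ (n : ℕ) (w : H n → ℝ) (y : V n) (s : ℝ), ContDiff ℝ 1 w →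
  ContDiff ℝ 1 (fun x : V n => w (x, y, s + 2 * inner ℝ x y)) ∧
  ∀ x, ‖fderiv ℝ (fun x : V n => w (x, y, s + 2 * inner ℝ x y)) x‖ =
    gX w (x, y, s + 2 * inner ℝ x y)

/-- S4: gradient on y-slices. -/
def T_S4 : Prop := ∀ (n : ℕ) (w : H n → ℝ) (x : V n) (s : ℝ), ContDiff ℝ 1 w →
  ContDiff ℝ 1 (fun y : V n => w (x, y, s - 2 * inner ℝ x y)) ∧
  ∀ y, ‖fderiv ℝ (fun y : V n => w (x, y, s - 2 * inner ℝ x y)) y‖ =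
    gY w (x, y, s - 2 * inner ℝ x y)

/-- S5: isoperimetry on all x-slices. -/
def T_S5 : Prop := ∀ n : ℕ, 1 ≤ n → ∀ (w : H n → ℝ) (θ : ℝ), ContDiff ℝ 1 w →
  HasCompactSupport w → (∀ p, 0 ≤ w p) → 0 < θ →
  ENNReal.ofReal θ * ∫⁻ p in {p | θ ≤ w p}, WX {p | θ ≤ w p} p ^ (-(1 / (n : ℝ))) ≤
    ENNReal.ofReal (K n * ∫ p, gX w p)

/-- S6: isoperimetry on all y-slices. -/
def T_S6 : Prop := ∀ n : ℕ, 1 ≤ n → ∀ (w : H n → ℝ) (θ : ℝ), ContDiff ℝ 1 w →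
  HasCompactSupport w → (∀ p, 0 ≤ w p) → 0 < θ →
  ENNReal.ofReal θ * ∫⁻ p in {p | θ ≤ w p}, WY {p | θ ≤ w p} p ^ (-(1 / (n : ℝ))) ≤
    ENNReal.ofReal (K n * ∫ p, gY w p)

/-- V0: change along the flows of `X_j`, `Y_j`. -/
def T_V0 : Prop := ∀ (n : ℕ) (v : H n → ℝ) (a : ℝ) (j : Fin n), ContDiff ℝ 1 v →
  HasCompactSupport v →
  (∫ p : H n, |v (p.1 + a • EuclideanSpace.single j (1 : ℝ), p.2.1, p.2.2 + 2 * a * p.2.1 j)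
      - v p| ≤ |a| * ∫ p, ‖X v j p‖) ∧
  (∫ p : H n, |v (p.1, p.2.1 + a • EuclideanSpace.single j (1 : ℝ), p.2.2 - 2 * a * p.1 j)
      - v p| ≤ |a| * ∫ p, ‖Y v j p‖)

/-- V1: vertical translations. -/
def T_V1 : Prop := ∀ n : ℕ, 1 ≤ n → ∀ (v : H n → ℝ) (σ : ℝ), ContDiff ℝ 1 v →
  HasCompactSupport v → 0 ≤ σ →
  ∫ p : H n, |v (p.1, p.2.1, p.2.2 + σ) - v p| ≤ 2 * Real.sqrt σ * ∫ p, grad v p

/-- V2: smoothing in the vertical direction. -/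
def T_V2 : Prop := ∀ (n : ℕ) (v : H n → ℝ) (h : ℝ), ContDiff ℝ 1 v → HasCompactSupport v →
  0 < h → ContDiff ℝ 1 (sm h v) ∧ HasCompactSupport (sm h v) ∧
  ∀ p q, fderiv ℝ (sm h v) p q = (1 / h) * ∫ σ in (0 : ℝ)..h,
    fderiv ℝ v (p.1, p.2.1, p.2.2 + σ) q

/-- V3: smoothing does not increase the integral of the gradient. -/
def T_V3 : Prop := ∀ (n : ℕ) (v : H n → ℝ) (h : ℝ), ContDiff ℝ 1 v → HasCompactSupport v →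
  0 < h → ∫ p, gX (sm h v) p ≤ ∫ p, gX v p ∧ ∫ p, gY (sm h v) p ≤ ∫ p, gY v p

/-- V4: smoothing is close to the identity. -/
def T_V4 : Prop := ∀ n : ℕ, 1 ≤ n → ∀ (v : H n → ℝ) (h : ℝ), ContDiff ℝ 1 v →
  HasCompactSupport v → 0 < h →
  ∫ p, |sm h v p - v p| ≤ 2 * Real.sqrt h * ∫ p, grad v p

/-- V5: the bound for the product of the slice volumes. -/
def T_V5 : Prop := ∀ (n : ℕ) (v : H n → ℝ) (h θ : ℝ), ContDiff ℝ 1 v → HasCompactSupport v →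
  (∀ p, 0 ≤ v p) → 0 < h → 0 < θ →
  ∫⁻ p in {p | θ ≤ sm h v p}, WX {p | θ ≤ sm h v p} p * WY {p | θ ≤ sm h v p} p ≤
    volume {p | θ ≤ sm h v p} * ENNReal.ofReal ((∫ p, v p) / (θ * h))

/-- V6: Hoelder. -/
def T_V6 : Prop := ∀ n : ℕ, 1 ≤ n → ∀ (F : Set (H n)) (a b c : ℝ), IsCompact F → 0 ≤ a →
  0 ≤ b → 0 ≤ c →
  ∫⁻ p in F, WX F p ^ (-(1 / (n : ℝ))) ≤ ENNReal.ofReal a →
  ∫⁻ p in F, WY F p ^ (-(1 / (n : ℝ))) ≤ ENNReal.ofReal b →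
  ∫⁻ p in F, WX F p * WY F p ≤ volume F * ENNReal.ofReal c →
  (volume F).toReal ^ 2 ≤ a * b * c ^ (1 / (n : ℝ))

/-- V7: the main inequality. -/
def T_V7 : Prop := ∀ n : ℕ, 1 ≤ n → ∀ (v : H n → ℝ) (h θ : ℝ), ContDiff ℝ 1 v →
  HasCompactSupport v → (∀ p, 0 ≤ v p) → 0 < h → 0 < θ →
  (volume {p | θ ≤ sm h v p}).toReal ^ 2 ≤
    K n ^ 2 / (2 * θ ^ 2) * (∫ p, grad v p) ^ 2 * ((∫ p, v p) / (θ * h)) ^ (1 / (n : ℝ))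

/-- V8: the capacity inequality in the Heisenberg group. -/
def T_V8 : Prop := ∀ n : ℕ, 1 ≤ n → ∀ v : H n → ℝ, ContDiff ℝ 1 v → HasCompactSupport v →
  (∀ p, 0 ≤ v p) →
  (volume {p | 1 ≤ v p}).toReal ≤
    CC n * (∫ p, grad v p) * (∫ p, v p) ^ (1 / (2 * (n : ℝ) + 2))

/-- L1: integration over the levels. -/
def T_L1 : Prop := ∀ (n : ℕ) (u : H n → ℝ) (ε : ℝ), ContDiff ℝ 1 u → HasCompactSupport u →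
  (∀ p, 0 ≤ u p) → 0 < ε →
  ∫⁻ τ in Ioi (0 : ℝ), ENNReal.ofReal
    (∫ p, grad (fun q : H n => Real.smoothTransition ((u q - τ) / ε)) p) ≤
    ENNReal.ofReal (∫ p, grad u p)

/-- L2: the inequality for the levels of `u`. -/
def T_L2 : Prop := ∀ n : ℕ, 1 ≤ n → ∀ (u : H n → ℝ) (ε τ : ℝ), ContDiff ℝ 1 u →
  HasCompactSupport u → (∀ p, 0 ≤ u p) → 0 < ε → 0 < τ →
  (volume {p | τ + ε ≤ u p}).toReal ≤
    CC n * (∫ p, grad (fun q : H n => Real.smoothTransition ((u q - τ) / ε)) p) *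
      (volume {p | τ < u p}).toReal ^ (1 / (2 * (n : ℝ) + 2))

/-- L3: the Sobolev inequality for `p = 1`, nonnegative functions. -/
def T_L3 : Prop := ∀ n : ℕ, 1 ≤ n → ∀ u : H n → ℝ, ContDiff ℝ 1 u → HasCompactSupport u →
  (∀ p, 0 ≤ u p) →
  (∫ p, u p ^ ((2 * (n : ℝ) + 2) / (2 * n + 1))) ^ ((2 * (n : ℝ) + 1) / (2 * n + 2)) ≤
    (2 * (n : ℝ) + 2) / (2 * n + 1) * CC n * ∫ p, grad u p

/-- C1: powers of the norm. -/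
def T_C1 : Prop := ∀ (F : Type) [NormedAddCommGroup F] [InnerProductSpace ℝ F] (n : ℕ)
  (u : H n → F) (γ : ℝ), 1 < γ → ContDiff ℝ 1 u → HasCompactSupport u →
  ContDiff ℝ 1 (fun p => ‖u p‖ ^ γ) ∧ HasCompactSupport (fun p => ‖u p‖ ^ γ) ∧
  ∀ p, grad (fun p => ‖u p‖ ^ γ) p ≤ γ * ‖u p‖ ^ (γ - 1) * grad u p

/-- C2: the upper bound. -/
def T_C2 : Prop := ∀ (F : Type) [NormedAddCommGroup F] [InnerProductSpace ℝ F] (n : ℕ),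
  1 ≤ n → ∀ p : ℝ, 1 < p → p < 2 * n + 2 →
  SobolevIneq F n p (((2 * (n : ℝ) + 2) * p / (2 * n + 2 - p) * CC n) ^ p)

/-- G0: real test functions are `𝕜`-valued test functions. -/
def T_G0 : Prop := ∀ (𝕜 : Type) [RCLike 𝕜] (n : ℕ) (p C : ℝ), SobolevIneq 𝕜 n p C →
  SobolevIneq ℝ n p C

/-- Truncated Gaussian profile. -/
noncomputable def fR (R ρ : ℝ) : ℝ := Real.exp (-ρ / 2) * Real.smoothTransition (R - ρ)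

/-- G1a: gradient of `f(|z|^2) g(t)`. -/
def T_G1a : Prop := ∀ (n : ℕ) (f g : ℝ → ℝ) (p : H n), ContDiff ℝ 1 f → ContDiff ℝ 1 g →
  grad (fun q : H n => f (‖q.1‖ ^ 2 + ‖q.2.1‖ ^ 2) * g q.2.2) p =
    2 * Real.sqrt ((‖p.1‖ ^ 2 + ‖p.2.1‖ ^ 2) *
      (deriv f (‖p.1‖ ^ 2 + ‖p.2.1‖ ^ 2) ^ 2 * g p.2.2 ^ 2 +
        f (‖p.1‖ ^ 2 + ‖p.2.1‖ ^ 2) ^ 2 * deriv g p.2.2 ^ 2))

/-- G1b: the truncated Gaussians are test functions. -/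
def T_G1b : Prop := ∀ (n : ℕ) (R : ℝ) (g : ℝ → ℝ), ContDiff ℝ ∞ g → HasCompactSupport g →
  ContDiff ℝ ∞ (fun q : H n => fR R (‖q.1‖ ^ 2 + ‖q.2.1‖ ^ 2) * g q.2.2) ∧
  HasCompactSupport (fun q : H n => fR R (‖q.1‖ ^ 2 + ‖q.2.1‖ ^ 2) * g q.2.2)

/-- G1: the inequality for Gaussians in `z` times a test function in `t`. -/
def T_G1 : Prop := ∀ (n : ℕ) (p C : ℝ), 1 ≤ n → 1 ≤ p → p < 2 * n + 2 → SobolevIneq ℝ n p C →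
  ∀ g : ℝ → ℝ, ContDiff ℝ ∞ g → HasCompactSupport g →
  (∫ z : H n, (Real.exp (-(‖z.1‖ ^ 2 + ‖z.2.1‖ ^ 2) / 2) * |g z.2.2|) ^
      ((2 * (n : ℝ) + 2) * p / (2 * n + 2 - p))) ^ ((2 * (n : ℝ) + 2 - p) / (2 * n + 2)) ≤
    C * ∫ z : H n, (Real.exp (-(‖z.1‖ ^ 2 + ‖z.2.1‖ ^ 2) / 2) *
      Real.sqrt ((‖z.1‖ ^ 2 + ‖z.2.1‖ ^ 2) * (g z.2.2 ^ 2 + 4 * deriv g z.2.2 ^ 2))) ^ p

/-- G2: Gaussian integral. -/
def T_G2 : Prop := ∀ (n : ℕ) (q : ℝ) (g : ℝ → ℝ), 0 < q → Continuous g → HasCompactSupport g →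
  ∫ z : H n, (Real.exp (-(‖z.1‖ ^ 2 + ‖z.2.1‖ ^ 2) / 2) * |g z.2.2|) ^ q =
    (2 * Real.pi / q) ^ n * ∫ t, |g t| ^ q

/-- G3: upper bound for the Gaussian moment. -/
def T_G3 : Prop := ∀ (n : ℕ) (p m : ℝ) (G : ℝ → ℝ), 1 ≤ p → 1 < m → Continuous G →
  HasCompactSupport G → (∀ t, 0 ≤ G t) →
  ∫ z : H n, (Real.exp (-(‖z.1‖ ^ 2 + ‖z.2.1‖ ^ 2) / 2) *
      Real.sqrt ((‖z.1‖ ^ 2 + ‖z.2.1‖ ^ 2) * G z.2.2)) ^ p ≤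
    m ^ (p / 2) * Real.exp (-(p / 2)) * (2 * Real.pi / (p * (1 - 1 / m))) ^ n *
      ∫ t, G t ^ (p / 2)

/-- G4: a plateau function. -/
def T_G4 : Prop := ∃ B : ℝ, 1 ≤ B ∧ ∀ T : ℝ, 1 ≤ T → ∃ g : ℝ → ℝ, ContDiff ℝ ∞ g ∧
  HasCompactSupport g ∧ (∀ q : ℝ, 0 < q → 2 * T ≤ ∫ t, |g t| ^ q) ∧
  ∀ p : ℝ, 1 ≤ p → ∫ t, (g t ^ 2 + 4 * deriv g t ^ 2) ^ (p / 2) ≤ 2 * T + 2 * B ^ (p / 2)

/-- G5: the lower bound. -/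
def T_G5 : Prop := ∃ A : ℝ, ∀ n : ℕ, 2 ≤ n → ∀ p C : ℝ, 1 ≤ p → p ≤ n → SobolevIneq ℝ n p C →
  0 < C ∧ p / 2 * Real.log (p ^ 2 / (4 * Real.pi * Real.exp 1 * n)) -
    A * p * (p + Real.log n) / n ≤ Real.log C

/-- A1: the size of `om n`. -/
def T_A1 : Prop := ∃ A : ℝ, ∀ n : ℕ, 1 ≤ n →
  n / 2 * Real.log (2 * Real.pi * Real.exp 1 / n) - A * Real.log (n + 1) ≤ Real.log (om n)

/-- A2: the size of `CC n`. -/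
def T_A2 : Prop := ∃ A : ℝ, ∀ n : ℕ, 1 ≤ n → 0 < CC n ∧
  Real.log (CC n) ≤ -(1 / 2) * Real.log (4 * Real.pi * Real.exp 1 * n) +
    A * Real.log (n + 1) / n

/-- A3: the upper bound. -/
def T_A3 : Prop := ∃ A : ℝ, ∀ n : ℕ, 2 ≤ n → ∀ p : ℝ, 1 < p → p ≤ n →
  0 < ((2 * (n : ℝ) + 2) * p / (2 * n + 2 - p) * CC n) ^ p ∧
  Real.log (((2 * (n : ℝ) + 2) * p / (2 * n + 2 - p) * CC n) ^ p) ≤
    p / 2 * Real.log (p ^ 2 / (4 * Real.pi * Real.exp 1 * n)) + A * p * (p + Real.log n) / n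

/-- The final statement. -/
def T_Final : Prop := ∃ A : ℝ, ∀ n : ℕ, ∀ p : ℝ, 1 < p → p ≤ n → ∀ (𝕜 : Type) [RCLike 𝕜],
  ∃ C : ℝ, 0 < C ∧ IsLeast {C : ℝ | SobolevIneq 𝕜 n p C} C ∧
    |Real.log C - p / 2 * Real.log (p ^ 2 / (4 * Real.pi * Real.exp 1 * n))| ≤
      A * p * (p + Real.log n) / n

end Pool.Agent.H80.HS
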